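import Mathlib
import Pool.Agent.Y356.DP.Sys

/-!
MP_f8fa1d_co: the threshold density for geometric progressions of every length `k ≥ 3`, with
arbitrary restrictions on the ratio, for systems of multiplicative equations, and for general
dilation invariant families of finite multiplicative patterns: it is attained by a natural density, it bounds all upper logarithmic
densities and all lower densities of pattern free sets, and it is the limit, with explicit error
bounds, of a sequence of finite optimisation problems.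
-/

set_option autoImplicit false

open Filter Topology

namespace Pool.Agent.Results.MP_f8fa1d_co.PatternThreshold

open Pool.Agent.Y356.DP Pool.Agent.H413R3

/-- A family `F` of finite sets of positive integers (the forbidden patterns) which is closed under
multiplication by positive integers in both directions, such that for every prime `p ≥ p₀`: if no
element of a pattern is divisible by `p ^ 2`, then all its elements or none are divisible by `p`. -/
structure IsPatternFamily (F : Finset ℕ → Prop) (p₀ : ℕ) : Prop where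
  nonempty : ¬ F ∅
  positive : ∀ X, F X → ∀ x ∈ X, 1 ≤ x
  dilate : ∀ (X : Finset ℕ) (m : ℕ), 1 ≤ m → (F (X.image (fun x => m * x)) ↔ F X)
  square : ∀ X, F X → ∀ p : ℕ, p.Prime → p₀ ≤ p → (∀ x ∈ X, ¬ p ^ 2 ∣ x) →
    ∀ x ∈ X, ∀ y ∈ X, p ∣ x → p ∣ y

/-- `A` contains one of the patterns of the family `F`. -/
def Contains (F : Finset ℕ → Prop) (A : Set ℕ) : Prop := ∃ X : Finset ℕ, F X ∧ (X : Set ℕ) ⊆ A

/-- `A` contains a geometric progression `a, a r, ..., a r ^ (k - 1)` with `k` terms whose real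
ratio `r > 1` satisfies `R`. (For `k ≥ 2` the ratio is automatically rational.) -/
def HasGP (k : ℕ) (R : ℚ → Prop) (A : Set ℕ) : Prop :=
  ∃ a ∈ A, ∃ r : ℝ, 1 < r ∧ (∀ q : ℚ, (q : ℝ) = r → R q) ∧
    ∀ i < k, ∃ n ∈ A, (n : ℝ) = a * r ^ i

/-- The finite set `X` consists of the `k` terms of a geometric progression of positive integers
with ratio `> 1` satisfying `R` (in a form which can be decided by a finite search). -/
def GP (k : ℕ) (R : ℚ → Prop) (X : Finset ℕ) : Prop :=
  X.card = k ∧ (∀ x ∈ X, 1 ≤ x) ∧ ∃ a ∈ X, ∃ b ∈ X, a < b ∧ R ((b : ℚ) / a) ∧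
    ∀ i ∈ Finset.range k, ∃ c ∈ X, c * a ^ i = a * b ^ i

instance (k : ℕ) (R : ℚ → Prop) [DecidablePred R] : DecidablePred (GP k R) := fun X => by
  unfold GP; infer_instance

/-- `x` solves the system of multiplicative equations `∏ j, x j ^ a i j = 1` (all `i`), written
without negative exponents. -/
def Solves {m n : ℕ} (a : Fin m → Fin n → ℤ) (x : Fin n → ℕ) : Prop :=
  ∀ i, ∏ j, x j ^ (a i j).toNat = ∏ j, x j ^ (-a i j).toNat

/-- `A` contains a nonconstant solution of the system `∏ j, x j ^ a i j = 1`. -/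
def HasSolution {m n : ℕ} (a : Fin m → Fin n → ℤ) (A : Set ℕ) : Prop :=
  ∃ x : Fin n → ℕ, (∀ j, x j ∈ A) ∧ (∃ j l, x j ≠ x l) ∧ Solves a x

/-- The finite set `X` of positive integers is the set of values of a nonconstant solution. -/
def SolutionSet {m n : ℕ} (a : Fin m → Fin n → ℤ) (X : Finset ℕ) : Prop :=
  (∀ x ∈ X, 1 ≤ x) ∧ ∃ x ∈ Fintype.piFinset (fun _ : Fin n => X),
    (∃ j l, x j ≠ x l) ∧ Finset.univ.image x = X ∧ Solves a x

instance {m n : ℕ} (a : Fin m → Fin n → ℤ) : DecidablePred (SolutionSet a) := fun X => by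
  unfold SolutionSet Solves; infer_instance

/-- The rows of `a` have sum zero, and the linear system `∑ j, a i j * e j = 0` has no nonconstant
solutions with all `e j` in `{0, 1}`. -/
def Admissible {m n : ℕ} (a : Fin m → Fin n → ℤ) : Prop :=
  (∀ i, ∑ j, a i j = 0) ∧ ∀ e : Fin n → ℤ, (∀ j, e j = 0 ∨ e j = 1) →
    (∀ i, ∑ j, a i j * e j = 0) → ∀ j l, e j = e l

/-- `A` has natural density `d`: the quotient `|A ∩ [1, n)| / n` tends to `d`. -/
def HasDensity (A : Set ℕ) (d : ℝ) : Prop :=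
  Tendsto (fun n : ℕ => ((A ∩ Set.Ico 1 n).ncard : ℝ) / n) atTop (𝓝 d)

/-- `s` is the threshold density for the property `H` of sets of positive integers:
it is the natural density of a set without the property; sets without the property have upper
logarithmic density at most `s`; sets of lower density greater than `s` have the property; and the
natural densities which guarantee the property are exactly the elements of `(s, 1]`. -/
structure IsThreshold (H : Set ℕ → Prop) (s : ℝ) : Prop where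
  attained : ∃ A : Set ℕ, (∀ n ∈ A, 1 ≤ n) ∧ HasDensity A s ∧ ¬ H A
  logarithmic : ∀ A : Set ℕ, (∀ n ∈ A, 1 ≤ n) → ¬ H A → ∀ ε > 0, ∀ᶠ N : ℕ in atTop,
    ∑ n ∈ Finset.Icc 1 N, A.indicator (fun n : ℕ => 1 / (n : ℝ)) n ≤ (s + ε) * Real.log N
  lower : ∀ A : Set ℕ, (∀ n ∈ A, 1 ≤ n) → ∀ δ > s,
    (∀ᶠ N : ℕ in atTop, δ * N ≤ ((A ∩ Set.Ico 1 N).ncard : ℝ)) → H A
  guarantee : {α : ℝ | α ∈ Set.Icc (0 : ℝ) 1 ∧
    ∀ A : Set ℕ, (∀ n ∈ A, 1 ≤ n) → HasDensity A α → H A} = Set.Ioc s 1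

/-- The `K`-th finite optimisation problem for the family `F`: the maximum of `0` and of the
rational numbers `∏_{p < K} (1 - 1 / p) * ∑_{t ∈ T} 1 / t` over the sets `T` of divisors of
`(∏_{p < K} p) ^ K` which contain no pattern of `F`. It is computable when `F` is decidable. -/
def opt (F : Finset ℕ → Prop) [DecidablePred F] (K : ℕ) : ℚ :=
  (insert 0 ((((∏ p ∈ Nat.primesBelow K, p) ^ K).divisors.powerset.filter
    (fun T : Finset ℕ => ∀ X ∈ T.powerset, ¬ F X)).image
    (fun T : Finset ℕ => (∏ p ∈ Nat.primesBelow K, (1 - 1 / (p : ℚ))) * ∑ t ∈ T, 1 / (t : ℚ)))).max'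
    (Finset.insert_nonempty _ _)

lemma pat {F : Finset ℕ → Prop} {p₀ : ℕ} (h : IsPatternFamily F p₀) : Pat F p₀ :=
  ⟨h.nonempty, h.positive, h.dilate, h.square⟩

lemma contains_iff {F : Finset ℕ → Prop} {A : Set ℕ} : Contains F A ↔ ¬ Free F A := by
  unfold Contains Free
  push Not
  exact Iff.rfl

lemma free_finset {F : Finset ℕ → Prop} {T : Finset ℕ} :
    (∀ X ∈ T.powerset, ¬ F X) ↔ Free F (T : Set ℕ) := by
  unfold Free
  constructor
  · intro h X hX hs
    exact h X (Finset.mem_powerset.2 (Finset.coe_subset.1 hs)) hX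
  · intro h X hX hFX
    exact h X hFX (Finset.coe_subset.2 (Finset.mem_powerset.1 hX))

lemma opt_eq {F : Finset ℕ → Prop} [DecidablePred F] {p₀ : ℕ} (hF : Pat F p₀) (K : ℕ) :
    (opt F K : ℝ) = mF F K := by
  symm
  apply IsGreatest.csSup_eq
  have hval : ∀ T : Finset ℕ, (((∏ p ∈ Nat.primesBelow K, (1 - 1 / (p : ℚ))) *
      ∑ t ∈ T, 1 / (t : ℚ) : ℚ) : ℝ) =
      (∏ p ∈ Nat.primesBelow K, (1 - (p : ℝ)⁻¹)) * ∑ t ∈ T, ((t : ℝ))⁻¹ := by
    intro T
    push_cast
    simp only [one_div]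
  constructor
  · have hmem : opt F K ∈ _ := Finset.max'_mem _ (Finset.insert_nonempty _ _)
    rw [Finset.mem_insert] at hmem
    rcases hmem with h0 | hmem
    · refine ⟨∅, Finset.empty_subset _, ?_, ?_⟩
      · rw [Finset.coe_empty]; exact free_empty hF
      · rw [h0]; simp
    · rw [Finset.mem_image] at hmem
      obtain ⟨T, hT, hv⟩ := hmem
      rw [Finset.mem_filter, Finset.mem_powerset] at hT
      exact ⟨T, hT.1, free_finset.1 hT.2, by rw [← hv, hval]⟩
  · rintro x ⟨T, hT, hg, rfl⟩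
    rw [← hval]
    have : (∏ p ∈ Nat.primesBelow K, (1 - 1 / (p : ℚ))) * ∑ t ∈ T, 1 / (t : ℚ) ≤ opt F K := by
      apply Finset.le_max'
      rw [Finset.mem_insert]
      right
      exact Finset.mem_image.2 ⟨T, Finset.mem_filter.2 ⟨Finset.mem_powerset.2 hT,
        free_finset.2 hg⟩, rfl⟩
    exact_mod_cast this

lemma LS_eq (A : Set ℕ) (N : ℕ) :
    ∑ n ∈ Finset.Icc 1 N, A.indicator (fun n : ℕ => 1 / (n : ℝ)) n = LS A N := by
  unfold LS
  simp only [one_div]

lemma lower_cnt {A : Set ℕ} {δ : ℝ}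
    (h : ∀ᶠ N : ℕ in atTop, δ * N ≤ ((A ∩ Set.Ico 1 N).ncard : ℝ)) :
    ∀ᶠ N : ℕ in atTop, δ * N ≤ (GP.cnt A N : ℝ) := by
  filter_upwards [h] with N hN
  refine hN.trans ?_
  have : (A ∩ Set.Ico 1 N).ncard ≤ GP.cnt A N := by
    apply Set.ncard_le_ncard _ ((Set.finite_Icc 1 N).inter_of_right _)
    rintro x ⟨hx, h1, h2⟩
    exact ⟨hx, h1, h2.le⟩
  exact_mod_cast this

lemma threshold_congr {H H' : Set ℕ → Prop} (h : ∀ A : Set ℕ, (∀ n ∈ A, 1 ≤ n) → (H A ↔ H' A))
    {s : ℝ} (hs : IsThreshold H s) : IsThreshold H' s := by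
  obtain ⟨⟨A, a1, a2, a3⟩, h2, h3, h4⟩ := hs
  refine ⟨⟨A, a1, a2, fun h' => a3 ((h A a1).2 h')⟩, fun A hA hn => h2 A hA fun h' => hn ((h A hA).1 h'),
    fun A hA δ hδ hl => (h A hA).1 (h3 A hA δ hδ hl), ?_⟩
  rw [← h4]
  ext α
  simp only [Set.mem_ofPred_eq]
  refine and_congr Iff.rfl (forall_congr' fun A => forall_congr' fun hA => ?_)
  exact ⟨fun h' hd => (h A hA).2 (h' hd), fun h' hd => (h A hA).1 (h' hd)⟩

theorem general (F : Finset ℕ → Prop) [DecidablePred F] (p₀ : ℕ) (hF : Pat F p₀) : ∃ s : ℝ,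
    IsThreshold (Contains F) s ∧ Tendsto (fun K : ℕ => (opt F K : ℝ)) atTop (𝓝 s) ∧
    ∀ K : ℕ, 2 ≤ K → p₀ ≤ K →
      (opt F K : ℝ) - 1 / ((K : ℝ) - 1) ≤ s ∧ s ≤ (opt F K : ℝ) + (K : ℝ) / 2 ^ (K + 1) := by
  obtain ⟨s, hs0, ⟨A, a1, a2, a3⟩, hup, hrate⟩ := main hF
  have hrate' : ∀ K : ℕ, 2 ≤ K → p₀ ≤ K →
      (opt F K : ℝ) - 1 / ((K : ℝ) - 1) ≤ s ∧ s ≤ (opt F K : ℝ) + (K : ℝ) / 2 ^ (K + 1) := by
    intro K h1 h2
    rw [opt_eq hF]
    exact hrate K h1 h2
  have hlow : ∀ A : Set ℕ, (∀ n ∈ A, 1 ≤ n) → ∀ δ > s,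
      (∀ᶠ N : ℕ in atTop, δ * N ≤ (GP.cnt A N : ℝ)) → Contains F A := by
    intro A hA δ hδ hl
    by_contra hno
    rw [contains_iff, not_not] at hno
    have := lower_le (A := A) (by linarith) (hup A hA hno) hl
    linarith
  refine ⟨s, ⟨⟨A, a1, KG.dens_iff_Ico.2 a3, fun h => contains_iff.1 h a2⟩, ?_, ?_, ?_⟩,
    tendsto_of_rate (p₀ := p₀) hrate', hrate'⟩
  · intro B hB hno ε hε
    rw [contains_iff, not_not] at hno
    filter_upwards [hup B hB hno ε hε] with N hN
    rw [LS_eq]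
    exact hN
  · intro B hB δ hδ hl
    exact hlow B hB δ hδ (lower_cnt hl)
  · ext α
    simp only [Set.mem_ofPred_eq, Set.mem_Icc, Set.mem_Ioc]
    constructor
    · rintro ⟨⟨hα0, hα1⟩, h⟩
      refine ⟨?_, hα1⟩
      by_contra hle
      rw [not_lt] at hle
      obtain ⟨B, b1, b2, b3⟩ := sub_dens a1 a2 a3 hα0 hle
      exact contains_iff.1 (h B b1 (KG.dens_iff_Ico.2 b3)) b2
    · rintro ⟨hs, hα1⟩
      refine ⟨⟨by linarith, hα1⟩, fun B b1 b2 => ?_⟩
      by_contra hno
      rw [contains_iff, not_not] at hno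
      have := dens_le_log (hup B b1 hno) (KG.dens_iff_Ico.1 b2) hs0
      linarith

/-- (1) Every dilation invariant family `F` of finite multiplicative patterns satisfying the
condition at the primes `p ≥ p₀` has a threshold density `s`; it is attained, and it is the limit of
the finite optimisation problems `opt F K` with explicit error bounds.
(2) For every `k ≥ 3` and every (decidable) condition `R` on the ratio this holds for geometric
progressions with `k` terms and ratio satisfying `R`, with error bounds for all `K ≥ 2`; for `k = 3`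
and `R` always true, these are the three-term geometric progressions of the question.
(3) The same for the nonconstant solutions of every admissible system of multiplicative equations,
for example `x y z = w ^ 3`. -/
theorem result :
    (∀ (F : Finset ℕ → Prop) [DecidablePred F] (p₀ : ℕ), IsPatternFamily F p₀ → ∃ s : ℝ,
      IsThreshold (Contains F) s ∧ Tendsto (fun K : ℕ => (opt F K : ℝ)) atTop (𝓝 s) ∧
      ∀ K : ℕ, 2 ≤ K → p₀ ≤ K →
        (opt F K : ℝ) - 1 / ((K : ℝ) - 1) ≤ s ∧ s ≤ (opt F K : ℝ) + (K : ℝ) / 2 ^ (K + 1)) ∧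
    (∀ (k : ℕ) (R : ℚ → Prop) [DecidablePred R], 3 ≤ k → ∃ s : ℝ,
      IsThreshold (HasGP k R) s ∧ Tendsto (fun K : ℕ => (opt (GP k R) K : ℝ)) atTop (𝓝 s) ∧
      ∀ K : ℕ, 2 ≤ K →
        (opt (GP k R) K : ℝ) - 1 / ((K : ℝ) - 1) ≤ s ∧
          s ≤ (opt (GP k R) K : ℝ) + (K : ℝ) / 2 ^ (K + 1)) ∧
    (∀ (m n : ℕ) (a : Fin m → Fin n → ℤ), Admissible a → ∃ s : ℝ,
      IsThreshold (HasSolution a) s ∧
      Tendsto (fun K : ℕ => (opt (SolutionSet a) K : ℝ)) atTop (𝓝 s) ∧
      ∀ K : ℕ, 2 ≤ K →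
        (opt (SolutionSet a) K : ℝ) - 1 / ((K : ℝ) - 1) ≤ s ∧
          s ≤ (opt (SolutionSet a) K : ℝ) + (K : ℝ) / 2 ^ (K + 1)) := by
  refine ⟨fun F _ p₀ hF => general F p₀ (pat hF), fun k R _ hk => ?_, fun m n a ha => ?_⟩
  · obtain ⟨s, h1, h2, h3⟩ := general (GP k R) 0 (pat_gp hk R)
    refine ⟨s, threshold_congr (fun A hA => ?_) h1, h2, fun K hK => h3 K hK (Nat.zero_le K)⟩
    rw [contains_iff]
    exact (hasGPR_iff hk R hA).symm
  · obtain ⟨s, h1, h2, h3⟩ := general (SolutionSet a) 0 (pat_sol a ha.1 ha.2)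
    refine ⟨s, threshold_congr (fun A hA => ?_) h1, h2, fun K hK => h3 K hK (Nat.zero_le K)⟩
    rw [contains_iff]
    exact (hasSol_iff a hA).symm

end Pool.Agent.Results.MP_f8fa1d_co.PatternThreshold
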